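import Pool.Agent.RAY.Answer
import Pool.Agent.RAY.Conj
import Pool.Agent.Tame.Final

/-!
# Parabolic mapping classes on the ray graph of the plane minus a Cantor set

The definitions (Cantor set, ray, isotopy of rays, ray graph, orientation preserving, acts
parabolically) are in `Pool/Agent/RAY/Defs.lean`.
-/

set_option autoImplicit false

namespace Pool.Agent.Results.MP_5d2250_gt.ParabolicEvery

open Pool.Agent.RAY

/-- For every Cantor set `C` of the plane there is an orientation preserving homeomorphism `f` of
the plane with `f '' C = C` whose action on the ray graph of the plane minus `C` is parabolic. -/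
theorem result {C : Set ℂ} (hC : IsCantor C) : ∃ (f : ℂ ≃ₜ ℂ) (hf : f '' C = C),
    OrientationPreserving f ∧ ActsParabolically f hf := by
  obtain ⟨C', f', hf', hC', h1, h2⟩ := exists_parabolic
  obtain ⟨h, hh⟩ := Pool.Agent.Tame.exists_equiv hC hC'
  exact parabolic_of_equiv h hh ⟨f', hf', h1, h2⟩

end Pool.Agent.Results.MP_5d2250_gt.ParabolicEvery
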